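import Mathlib
import Pool.Agent.Y381.Shk.Polish
import Pool.Agent.Y381.Shk.Orbit
import Pool.Agent.Y381.Shk.Ury

/-!
# The isometry group of the Urysohn space is metrically universal for a suitable metric
-/

set_option autoImplicit false

namespace Pool.Agent.Results.MP_501377_al.IsoUrysohn

open Pool.Agent.H686R4

universe u

/-- `U` is the Urysohn universal metric space: it is complete and separable, and every function
on a finite subset which satisfies the triangle inequalities for a one-point extension is the
distance from some point of `U` (this determines `U` up to isometry). -/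
def IsUrysohn (U : Type) [MetricSpace U] : Prop :=
  CompleteSpace U ∧ TopologicalSpace.SeparableSpace U ∧
    ∀ (s : Finset U) (f : U → ℝ),
      (∀ x ∈ s, ∀ y ∈ s, |f x - f y| ≤ dist x y ∧ dist x y ≤ f x + f y) →
      ∃ z : U, ∀ x ∈ s, dist z x = f x

/-- Let `U` be the Urysohn space. There are a point `u₀` of `U` and a left-invariant metric on the
group of all isometries of `U` (written as a group `G` with an isomorphism `a` onto this group)
which induces the topology of pointwise convergence (in which the group is a Polish group), such
that every separable group `H` with left-invariant metric (inducing a group topology) admits an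
isometric embedding `φ` into `G` (an injective distance-preserving group homomorphism), for which
moreover the orbit map `h ↦ φ(h) u₀` is an isometric embedding of `H` into `U`. -/
theorem result :
    ∃ (U : Type) (_ : MetricSpace U) (u₀ : U) (G : Type) (_ : Group G) (_ : MetricSpace G)
      (a : G ≃* (U ≃ᵢ U)),
      IsUrysohn U ∧
      Topology.IsInducing (fun (g : G) (x : U) => a g x) ∧
      IsTopologicalGroup G ∧ PolishSpace G ∧
      (∀ g x y : G, dist (g * x) (g * y) = dist x y) ∧
      ∀ (H : Type u) [Group H] [MetricSpace H],
        IsTopologicalGroup H → TopologicalSpace.SeparableSpace H →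
        (∀ g x y : H, dist (g * x) (g * y) = dist x y) →
        ∃ φ : H →* G, Function.Injective φ ∧
          (∀ x y : H, dist (φ x) (φ y) = dist x y) ∧
          ∀ x y : H, dist (a (φ x) u₀) (a (φ y) u₀) = dist x y := by
  refine ⟨UU, inferInstance, pt 0, GU, inferInstance, inferInstance,
    (show GU ≃* (UU ≃ᵢ UU) from MulEquiv.refl (UU ≃ᵢ UU)),
    ⟨inferInstance, inferInstance, Pool.Agent.Y381.Shk.urysohn⟩,
    Pool.Agent.Y381.Shk.isInducing_ap, isTopologicalGroup_GU, Pool.Agent.Y381.Shk.polish_GU,
    dist_left, ?_⟩
  intro H _ _ h1 h2 h3
  obtain ⟨φ, hφ, hφ0⟩ := Pool.Agent.Y381.Shk.exists_embedding2 H h3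
  refine ⟨φ, ?_, hφ, hφ0⟩
  intro x y hxy
  have := hφ x y
  rw [hxy, dist_self] at this
  exact dist_eq_zero.1 this.symm

end Pool.Agent.Results.MP_501377_al.IsoUrysohn
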